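import Pool.Agent.Lib.MP_0a5adf_nt.EXR.Base
import Pool.Agent.Lib.MP_0a5adf_nt.EXP.H59.Main

/-!
Module MAING: sum over the classes.
-/

set_option autoImplicit false

namespace Pool.Agent.Lib.MP_0a5adf_nt.EXR.H59

open Finset Pool.Agent.Lib.MP_0a5adf_nt.EXP Pool.Agent.Lib.MP_0a5adf_nt.EXP.H59

/-- class indices -/
abbrev IdG (M : ℕ) : Type :=
  (Fin 3 → Fin (M + 1)) × (Fin 3 → Fin (M + 1)) × (Fin 3 → Fin (M + 1)) × Fin (M + 1)

/-- words -/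
abbrev QG (m d : ℕ) : Type :=
  (Fin (m + d) → Bool) × (Fin m → Bool) × (Fin m → Bool) × (Fin m → Bool)

/-- validity -/
def ValidG (m d c : ℕ) (p : IdG (m + d)) : Prop :=
  ((p.1 0 : ℕ) ≤ m + d ∧ (p.2.1 0 : ℕ) ≤ p.1 0 ∧ (p.2.2.1 0 : ℕ) ≤ m + d - p.1 0 ∧
    2 ^ (m + d) ≤ 2 ^ (p.1 0 : ℕ) * 3 ^ (p.2.2.1 0 : ℕ)) ∧
  ((p.1 1 : ℕ) ≤ m ∧ (p.2.1 1 : ℕ) ≤ p.1 1 ∧ (p.2.2.1 1 : ℕ) ≤ m - p.1 1 ∧
    2 ^ m ≤ 2 ^ (p.1 1 : ℕ) * 3 ^ (p.2.2.1 1 : ℕ)) ∧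
  ((p.1 2 : ℕ) ≤ m ∧ (p.2.1 2 : ℕ) ≤ p.1 2 ∧ (p.2.2.1 2 : ℕ) ≤ m - p.1 2 ∧
    2 ^ m ≤ 2 ^ (p.1 2 : ℕ) * 3 ^ (p.2.2.1 2 : ℕ)) ∧ (p.2.2.2 : ℕ) ≤ m ∧
  2 ^ m ≤ 2 ^ c * 3 ^ ((p.2.1 0 : ℕ) + p.2.2.1 0) ∧
  2 ^ (2 * m) ≤ 2 ^ c * 3 ^ ((p.2.1 0 : ℕ) + p.2.2.1 0 + (p.2.1 1 + p.2.2.1 1)) ∧
  2 ^ (3 * m) ≤ 2 ^ c * 3 ^ ((p.2.1 0 : ℕ) + p.2.2.1 0 + (p.2.1 1 + p.2.2.1 1) +
    (p.2.1 2 + p.2.2.1 2)) ∧
  2 ^ (4 * m) ≤ 2 ^ c * 3 ^ ((p.2.1 0 : ℕ) + p.2.2.1 0 + (p.2.1 1 + p.2.2.1 1) +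
    (p.2.1 2 + p.2.2.1 2) + p.2.2.2)

/-- the set of words of a class -/
def InClassG (m d : ℕ) (n j' j'' : Fin 3 → ℕ) (j3 J0 J1 J2 : ℕ) (g : ℤ) (q : QG m d) : Prop :=
  (pre q.1 (n 0) = j' 0 ∧ suf q.1 (n 0) = j'' 0 ∧
    rr q.1 ≤ (m + d : ℕ) * (2 ^ n 0 * 3 ^ j'' 0)) ∧
  (pre q.2.1 (n 1) = j' 1 ∧ suf q.2.1 (n 1) = j'' 1 ∧
    rr q.2.1 ≤ m * (2 ^ n 1 * 3 ^ j'' 1)) ∧
  (pre q.2.2.1 (n 2) = j' 2 ∧ suf q.2.2.1 (n 2) = j'' 2 ∧
    rr q.2.2.1 ≤ m * (2 ^ n 2 * 3 ^ j'' 2)) ∧ ones q.2.2.2 = j3 ∧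
  (2 : ℤ) ^ m ∣ 3 ^ (j3 + (J2 - J0)) * zeta J0 (3 * m + d) (rr q.1)
    + 3 ^ (j3 + (J2 - J1)) * zeta J1 (2 * m) (rr q.2.1)
    + 3 ^ j3 * zeta J2 m (rr q.2.2.1) + rr q.2.2.2 - g

theorem Psi_pos (lam : ℝ) : 0 < Psi lam := by
  unfold Psi
  positivity

theorem one_le_Psi {lam : ℝ} (h0 : 0 ≤ lam) : 1 ≤ Psi lam := by
  unfold Psi
  rw [le_div_iff₀ (by positivity), one_mul]
  have h1 : (16 : ℝ) ^ lam ≤ 81 ^ lam := Real.rpow_le_rpow (by norm_num) (by norm_num) h0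
  have h2 : (0 : ℝ) ≤ 9 ^ lam := by positivity
  linarith

/-- numerical form of the class bound -/
theorem class_numG {m d : ℕ} (hm : 1 ≤ m) {N δ lam cc : ℝ} (hN0 : 0 ≤ N) (hδ : 0 ≤ δ)
    (hN : N ^ 4 ≤ (100 * m * 2 ^ (δ * m)) ^ 3 * 2 ^ (4 * cc * lam) * 2 ^ ((1 + 4 * lam) * d) *
      Psi lam ^ (4 * m + d)) :
    N ≤ 100 * m * 2 ^ (δ * m) * 2 ^ (cc * lam) * 2 ^ ((lam + 1 / 4) * d) *
      Psi lam ^ (((4 * m + d : ℕ) : ℝ) / 4) := by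
  have hm' : (1 : ℝ) ≤ m := by exact_mod_cast hm
  have hP := Psi_pos lam
  refine le_of_pow_le_pow_left₀ (n := 4) (by norm_num) (by positivity) (hN.trans ?_)
  have h1 : (1 : ℝ) ≤ 2 ^ (δ * m) := Real.one_le_rpow (by norm_num) (by positivity)
  have h2 : (1 : ℝ) ≤ 100 * m * 2 ^ (δ * m) := by nlinarith
  have h3 : (100 * (m : ℝ) * 2 ^ (δ * m)) ^ 3 ≤ (100 * m * 2 ^ (δ * m)) ^ 4 :=
    pow_le_pow_right₀ h2 (by norm_num)
  have h4 : ((2 : ℝ) ^ (cc * lam)) ^ 4 = 2 ^ (4 * cc * lam) := by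
    rw [← Real.rpow_natCast, ← Real.rpow_mul (by norm_num)]
    congr 1
    push_cast
    ring
  have h5 : ((2 : ℝ) ^ ((lam + 1 / 4) * d)) ^ 4 = 2 ^ ((1 + 4 * lam) * d) := by
    rw [← Real.rpow_natCast, ← Real.rpow_mul (by norm_num)]
    congr 1
    push_cast
    ring
  have h6 : (Psi lam ^ (((4 * m + d : ℕ) : ℝ) / 4)) ^ 4 = Psi lam ^ (4 * m + d) := by
    rw [← Real.rpow_natCast, ← Real.rpow_mul hP.le, ← Real.rpow_natCast (Psi lam) (4 * m + d)]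
    congr 1
    push_cast
    ring
  calc (100 * (m : ℝ) * 2 ^ (δ * m)) ^ 3 * 2 ^ (4 * cc * lam) * 2 ^ ((1 + 4 * lam) * d) *
        Psi lam ^ (4 * m + d)
      ≤ (100 * (m : ℝ) * 2 ^ (δ * m)) ^ 4 * 2 ^ (4 * cc * lam) * 2 ^ ((1 + 4 * lam) * d) *
        Psi lam ^ (4 * m + d) := by gcongr
    _ = (100 * m * 2 ^ (δ * m) * 2 ^ (cc * lam) * 2 ^ ((lam + 1 / 4) * d) *
          Psi lam ^ (((4 * m + d : ℕ) : ℝ) / 4)) ^ 4 := by
        rw [mul_pow (100 * (m : ℝ) * 2 ^ (δ * m) * 2 ^ (cc * lam) * 2 ^ ((lam + 1 / 4) * d)),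
          mul_pow (100 * (m : ℝ) * 2 ^ (δ * m) * 2 ^ (cc * lam)),
          mul_pow (100 * (m : ℝ) * 2 ^ (δ * m)), h4, h5, h6]

/-- polynomial against exponential -/
theorem poly_boundG (δ : ℝ) (hδ : 0 < δ) :
    ∃ C : ℝ, 0 ≤ C ∧ ∀ m : ℕ, (2 * (m : ℝ) + 5) ^ 11 ≤ C * 2 ^ (δ * m) := by
  have h1 : Filter.Tendsto (fun n : ℕ => (n : ℝ) ^ 11 * ((2 : ℝ) ^ (-δ)) ^ n)
      Filter.atTop (nhds 0) := by
    refine tendsto_pow_const_mul_const_pow_of_abs_lt_one 11 ?_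
    rw [abs_of_pos (Real.rpow_pos_of_pos (by norm_num) _)]
    exact Real.rpow_lt_one_of_one_lt_of_neg (by norm_num) (by linarith)
  obtain ⟨B, hB⟩ := h1.bddAbove_range
  refine ⟨5 ^ 11 * (|B| * 2 ^ δ), by positivity, fun m => ?_⟩
  have h2 := hB ⟨m + 1, rfl⟩
  simp only at h2
  rw [← Real.rpow_natCast ((2 : ℝ) ^ (-δ)), ← Real.rpow_mul (by norm_num)] at h2
  push_cast at h2
  have h3 : (0 : ℝ) < 2 ^ (δ * (m + 1)) := Real.rpow_pos_of_pos (by norm_num) _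
  have h4 : (2 : ℝ) ^ (-δ * ((m : ℝ) + 1)) * 2 ^ (δ * (m + 1)) = 1 := by
    rw [← Real.rpow_add (by norm_num)]
    have : -δ * ((m : ℝ) + 1) + δ * (m + 1) = 0 := by ring
    rw [this, Real.rpow_zero]
  have h5 : ((m : ℝ) + 1) ^ 11 ≤ |B| * 2 ^ δ * 2 ^ (δ * m) := by
    calc ((m : ℝ) + 1) ^ 11 = (((m : ℝ) + 1) ^ 11 * 2 ^ (-δ * ((m : ℝ) + 1))) *
          2 ^ (δ * (m + 1)) := by rw [mul_assoc, h4, mul_one]
      _ ≤ |B| * 2 ^ (δ * (m + 1)) :=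
          mul_le_mul_of_nonneg_right (h2.trans (le_abs_self B)) h3.le
      _ = |B| * 2 ^ δ * 2 ^ (δ * m) := by
          rw [mul_assoc, ← Real.rpow_add (by norm_num)]
          congr 2
          ring
  calc (2 * (m : ℝ) + 5) ^ 11 ≤ (5 * ((m : ℝ) + 1)) ^ 11 := by
        have : (0 : ℝ) ≤ m := Nat.cast_nonneg _
        exact pow_le_pow_left₀ (by positivity) (by linarith) _
    _ = 5 ^ 11 * ((m : ℝ) + 1) ^ 11 := by rw [mul_pow]
    _ ≤ 5 ^ 11 * (|B| * 2 ^ δ * 2 ^ (δ * m)) := mul_le_mul_of_nonneg_left h5 (by positivity)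
    _ = 5 ^ 11 * (|B| * 2 ^ δ) * 2 ^ (δ * m) := by ring

theorem SG_finite (m d c : ℕ) : (SG m d c).Finite := by
  refine (Set.finite_Icc (-(2 ^ (3 * m + d + c) : ℤ)) (2 ^ (3 * m + d + c))).subset ?_
  intro x hx
  exact abs_le.1 hx.1

theorem maing (hC : ClassGStatement) (hH : HeightGStatement) (hD : DecompGStatement)
    (hR : RiseStatement) (hW : WordsStatement) : MainGStatement := by
  classical
  intro c ε lam hε hl0 hl1
  obtain ⟨m1, hm1⟩ := hC (2 * c + 1) (ε / 2) lam (by positivity) hl0 hl1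
  obtain ⟨m2, hm2⟩ := hH c
  obtain ⟨C2, hC20, hC2⟩ := poly_boundG (ε / 2) (by positivity)
  obtain ⟨-, -, -, hW4⟩ := hW
  set m0 := max (max m1 m2) 1 with hm0
  have hPsi := Psi_pos lam
  -- large m
  have hlarge : ∀ m ≥ m0, ∀ d ≤ m + 4, ((SG m d c).ncard : ℝ) ≤
      ((2 * (3 + 2 ^ c) + 1) * 100 * 2 ^ (((2 * c + 1 : ℕ) : ℝ) * lam) * C2) * 2 ^ (ε * m) *
        2 ^ ((lam + 1 / 4) * d) * Psi lam ^ (((4 * m + d : ℕ) : ℝ) / 4) := by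
    intro m hm d hd
    have hmm1 : m1 ≤ m := ((le_max_left _ _).trans (le_max_left _ _)).trans hm
    have hmm2 : m2 ≤ m := ((le_max_right _ _).trans (le_max_left _ _)).trans hm
    have hmm3 : 1 ≤ m := (le_max_right _ _).trans hm
    choose nn hnn1 hnn2 hnn3 using fun w : Fin m → Bool => hR m w
    choose nd hnd1 hnd2 hnd3 using fun w : Fin (m + d) → Bool => hR (m + d) w
    let b0 : ℤ → (Fin (m + d) → Bool) := fun x => wd (m + d) x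
    let b1 : ℤ → (Fin m → Bool) := fun x => wd m (T^[m + d] x)
    let b2 : ℤ → (Fin m → Bool) := fun x => wd m (T^[2 * m + d] x)
    let b3 : ℤ → (Fin m → Bool) := fun x => wd m (T^[3 * m + d] x)
    have hκ : ∀ x : ℤ, ∃ κ : ℤ, x ∈ SG m d c → |κ| ≤ 3 + 2 ^ c ∧
      x = sol (ones (b0 x)) (3 * m + d) (rr (b0 x)) +
          2 ^ (m + d) * sol (ones (b0 x) + ones (b1 x)) (2 * m) (rr (b1 x))
        + 2 ^ (2 * m + d) * sol (ones (b0 x) + ones (b1 x) + ones (b2 x)) m (rr (b2 x))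
        - κ * 2 ^ (3 * m + d) ∧
      (2 : ℤ) ^ m ∣ 3 ^ (ones (b3 x) + (ones (b0 x) + ones (b1 x) + ones (b2 x) -
            ones (b0 x))) * zeta (ones (b0 x)) (3 * m + d) (rr (b0 x))
        + 3 ^ (ones (b3 x) + (ones (b0 x) + ones (b1 x) + ones (b2 x) -
            (ones (b0 x) + ones (b1 x)))) *
              zeta (ones (b0 x) + ones (b1 x)) (2 * m) (rr (b1 x))
        + 3 ^ ones (b3 x) *
            zeta (ones (b0 x) + ones (b1 x) + ones (b2 x)) m (rr (b2 x)) +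
          rr (b3 x) - κ * 3 ^ (ones (b3 x) +
            (ones (b0 x) + ones (b1 x) + ones (b2 x))) := by
      intro x
      by_cases hx : x ∈ SG m d c
      · obtain ⟨κ, h1, h2, h3⟩ := hD m d c x _ _ _ _ hx.1 rfl rfl rfl rfl
        exact ⟨κ, fun _ => ⟨h1, h2, h3⟩⟩
      · exact ⟨0, fun h => absurd h hx⟩
    choose κ hκ using hκ
    -- code
    have hlt : ∀ {a : ℕ}, a ≤ m → a < m + d + 1 := fun h => by omega
    let idx : ℤ → IdG (m + d) := fun x =>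
      (![⟨nd (b0 x), Nat.lt_succ_of_le (hnd1 _)⟩, ⟨nn (b1 x), hlt (hnn1 _)⟩,
          ⟨nn (b2 x), hlt (hnn1 _)⟩],
       ![⟨pre (b0 x) (nd (b0 x)), Nat.lt_succ_of_le ((pre_le _ _).trans (hnd1 _))⟩,
          ⟨pre (b1 x) (nn (b1 x)), hlt ((pre_le _ _).trans (hnn1 _))⟩,
          ⟨pre (b2 x) (nn (b2 x)), hlt ((pre_le _ _).trans (hnn1 _))⟩],
       ![⟨suf (b0 x) (nd (b0 x)), Nat.lt_succ_of_le ((suf_le _ _).trans (Nat.sub_le _ _))⟩,
          ⟨suf (b1 x) (nn (b1 x)), hlt ((suf_le _ _).trans (Nat.sub_le _ _))⟩,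
          ⟨suf (b2 x) (nn (b2 x)), hlt ((suf_le _ _).trans (Nat.sub_le _ _))⟩],
       ⟨ones (b3 x), hlt (by
          rw [← hW4 m 0]
          have h1 := pre_le (b3 x) 0
          have h2 := suf_le (b3 x) 0
          omega)⟩)
    let gof : ℤ → IdG (m + d) → ℤ := fun k p => k * 3 ^ ((p.2.2.2 : ℕ) +
      ((p.2.1 0 : ℕ) + p.2.2.1 0 + (p.2.1 1 + p.2.2.1 1) + (p.2.1 2 + p.2.2.1 2)))
    let cls : ℤ → IdG (m + d) → Finset (QG m d) := fun k p => univ.filter (fun q =>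
      ValidG m d (2 * c + 1) p ∧
      InClassG m d (fun i => p.1 i) (fun i => p.2.1 i) (fun i => p.2.2.1 i) p.2.2.2
        ((p.2.1 0 : ℕ) + p.2.2.1 0) ((p.2.1 0 : ℕ) + p.2.2.1 0 + (p.2.1 1 + p.2.2.1 1))
        ((p.2.1 0 : ℕ) + p.2.2.1 0 + (p.2.1 1 + p.2.2.1 1) + (p.2.1 2 + p.2.2.1 2)) (gof k p) q)
    let I : Finset (ℤ × IdG (m + d)) := (Icc (-(3 + 2 ^ c : ℤ)) (3 + 2 ^ c)) ×ˢ univ
    let TT : Finset (Σ _ : ℤ × IdG (m + d), QG m d) := I.sigma (fun p => cls p.1 p.2)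
    let F : ℤ → (Σ _ : ℤ × IdG (m + d), QG m d) := fun x =>
      ⟨(κ x, idx x), (b0 x, b1 x, b2 x, b3 x)⟩
    have hcard : (SG m d c).ncard ≤ TT.card := by
      rw [← Set.ncard_coe_finset]
      refine Set.ncard_le_ncard_of_injOn F ?_ ?_ (Finset.finite_toSet _)
      · intro x hx
        obtain ⟨hk1, hk2, hk3⟩ := hκ x hx
        have e0 : pre (b0 x) (nd (b0 x)) + suf (b0 x) (nd (b0 x)) = ones (b0 x) := hW4 _ _ _
        have e1 : pre (b1 x) (nn (b1 x)) + suf (b1 x) (nn (b1 x)) = ones (b1 x) := hW4 _ _ _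
        have e2 : pre (b2 x) (nn (b2 x)) + suf (b2 x) (nn (b2 x)) = ones (b2 x) := hW4 _ _ _
        obtain ⟨g0, g1, g2, g3⟩ := hm2 m hmm2 d hd x hx _ _ _ _ rfl rfl rfl rfl
        simp only [TT, I, F, coe_sigma, Set.mem_sigma_iff, mem_coe, mem_product, mem_Icc, mem_univ,
          and_true, cls, mem_filter, true_and]
        refine ⟨abs_le.1 hk1, ⟨?_, ?_, ?_, ?_, ?_, ?_, ?_, ?_⟩, ?_⟩
        · exact ⟨hnd1 _, pre_le _ _, suf_le _ _, hnd2 _⟩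
        · exact ⟨hnn1 _, pre_le _ _, suf_le _ _, hnn2 _⟩
        · exact ⟨hnn1 _, pre_le _ _, suf_le _ _, hnn2 _⟩
        · show ones (b3 x) ≤ m
          rw [← hW4 m 0]
          have h1 := pre_le (b3 x) 0
          have h2 := suf_le (b3 x) 0
          omega
        · show 2 ^ m ≤ 2 ^ (2 * c + 1) * 3 ^ (pre (b0 x) (nd (b0 x)) + suf (b0 x) (nd (b0 x)))
          rw [e0]
          exact g0
        · show 2 ^ (2 * m) ≤ 2 ^ (2 * c + 1) * 3 ^ (pre (b0 x) (nd (b0 x)) + suf (b0 x) (nd (b0 x)) +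
            (pre (b1 x) (nn (b1 x)) + suf (b1 x) (nn (b1 x))))
          rw [e0, e1]
          exact g1
        · show 2 ^ (3 * m) ≤ 2 ^ (2 * c + 1) * 3 ^ (pre (b0 x) (nd (b0 x)) + suf (b0 x) (nd (b0 x)) +
            (pre (b1 x) (nn (b1 x)) + suf (b1 x) (nn (b1 x))) +
            (pre (b2 x) (nn (b2 x)) + suf (b2 x) (nn (b2 x))))
          rw [e0, e1, e2]
          exact g2
        · show 2 ^ (4 * m) ≤ 2 ^ (2 * c + 1) * 3 ^ (pre (b0 x) (nd (b0 x)) + suf (b0 x) (nd (b0 x)) +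
            (pre (b1 x) (nn (b1 x)) + suf (b1 x) (nn (b1 x))) +
            (pre (b2 x) (nn (b2 x)) + suf (b2 x) (nn (b2 x))) + ones (b3 x))
          rw [e0, e1, e2]
          exact g3
        · refine ⟨⟨rfl, rfl, ?_⟩, ⟨rfl, rfl, ?_⟩, ⟨rfl, rfl, ?_⟩, rfl, ?_⟩
          · exact hnd3 _
          · exact hnn3 _
          · exact hnn3 _
          · show (2 : ℤ) ^ m ∣ 3 ^ (ones (b3 x) + (pre (b0 x) (nd (b0 x)) + suf (b0 x) (nd (b0 x)) +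
              (pre (b1 x) (nn (b1 x)) + suf (b1 x) (nn (b1 x))) +
              (pre (b2 x) (nn (b2 x)) + suf (b2 x) (nn (b2 x))) -
              (pre (b0 x) (nd (b0 x)) + suf (b0 x) (nd (b0 x))))) *
              zeta (pre (b0 x) (nd (b0 x)) + suf (b0 x) (nd (b0 x))) (3 * m + d) (rr (b0 x))
              + 3 ^ (ones (b3 x) + (pre (b0 x) (nd (b0 x)) + suf (b0 x) (nd (b0 x)) +
              (pre (b1 x) (nn (b1 x)) + suf (b1 x) (nn (b1 x))) +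
              (pre (b2 x) (nn (b2 x)) + suf (b2 x) (nn (b2 x))) -
              (pre (b0 x) (nd (b0 x)) + suf (b0 x) (nd (b0 x)) +
              (pre (b1 x) (nn (b1 x)) + suf (b1 x) (nn (b1 x)))))) *
              zeta (pre (b0 x) (nd (b0 x)) + suf (b0 x) (nd (b0 x)) +
              (pre (b1 x) (nn (b1 x)) + suf (b1 x) (nn (b1 x)))) (2 * m) (rr (b1 x))
              + 3 ^ ones (b3 x) * zeta (pre (b0 x) (nd (b0 x)) + suf (b0 x) (nd (b0 x)) +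
              (pre (b1 x) (nn (b1 x)) + suf (b1 x) (nn (b1 x))) +
              (pre (b2 x) (nn (b2 x)) + suf (b2 x) (nn (b2 x)))) m (rr (b2 x)) + rr (b3 x) -
              κ x * 3 ^ (ones (b3 x) + (pre (b0 x) (nd (b0 x)) + suf (b0 x) (nd (b0 x)) +
              (pre (b1 x) (nn (b1 x)) + suf (b1 x) (nn (b1 x))) +
              (pre (b2 x) (nn (b2 x)) + suf (b2 x) (nn (b2 x)))))
            rw [e0, e1, e2]
            exact hk3
      · intro x hx y hy hxy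
        obtain ⟨-, hx2, -⟩ := hκ x hx
        obtain ⟨-, hy2, -⟩ := hκ y hy
        have h1 : (F x).1.1 = (F y).1.1 := by rw [hxy]
        have h2 : (F x).2 = (F y).2 := by rw [hxy]
        simp only [F] at h1 h2
        have h20 := congrArg Prod.fst h2
        have h21 := congrArg (fun q => q.2.1) h2
        have h22 := congrArg (fun q => q.2.2.1) h2
        simp only at h20 h21 h22
        rw [hx2, hy2, h1, h20, h21, h22]
    have hcls : ∀ k p, ((cls k p).card : ℝ) ≤ 100 * m * 2 ^ (ε / 2 * m) *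
        2 ^ (((2 * c + 1 : ℕ) : ℝ) * lam) * 2 ^ ((lam + 1 / 4) * d) *
        Psi lam ^ (((4 * m + d : ℕ) : ℝ) / 4) := by
      intro k p
      by_cases hv : ValidG m d (2 * c + 1) p
      · refine class_numG hmm3 (Nat.cast_nonneg _) (by positivity) ?_
        have hcl := hm1 m hmm1 d hd (fun i => p.1 i) (fun i => p.2.1 i) (fun i => p.2.2.1 i)
          p.2.2.2 ((p.2.1 0 : ℕ) + p.2.2.1 0)
          ((p.2.1 0 : ℕ) + p.2.2.1 0 + (p.2.1 1 + p.2.2.1 1))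
          ((p.2.1 0 : ℕ) + p.2.2.1 0 + (p.2.1 1 + p.2.2.1 1) + (p.2.1 2 + p.2.2.1 2))
          hv.1 hv.2.1 hv.2.2.1 hv.2.2.2.1 rfl rfl rfl hv.2.2.2.2.1 hv.2.2.2.2.2.1
          hv.2.2.2.2.2.2.1 hv.2.2.2.2.2.2.2 (gof k p)
        refine le_trans (le_of_eq ?_) hcl
        congr 2
        refine congrArg card ?_
        ext q
        simp only [cls, mem_filter, mem_univ, true_and, InClassG]
        exact ⟨fun h => h.2, fun h => ⟨hv, h⟩⟩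
      · have : cls k p = ∅ := by
          ext q
          simp only [cls, mem_filter, mem_univ, true_and, notMem_empty, iff_false, not_and]
          exact fun h => absurd h hv
        rw [this, card_empty]
        push_cast
        positivity
    have hTT : (TT.card : ℝ) ≤ I.card * (100 * m * 2 ^ (ε / 2 * m) *
        2 ^ (((2 * c + 1 : ℕ) : ℝ) * lam) * 2 ^ ((lam + 1 / 4) * d) *
        Psi lam ^ (((4 * m + d : ℕ) : ℝ) / 4)) := by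
      rw [card_sigma]
      push_cast
      refine (sum_le_sum (fun p _ => hcls p.1 p.2)).trans (le_of_eq ?_)
      rw [sum_const, nsmul_eq_mul]
      push_cast
      ring
    have hI : (I.card : ℝ) = (2 * (3 + 2 ^ c) + 1) * ((m : ℝ) + d + 1) ^ 10 := by
      have h1 : I.card = (2 * (3 + 2 ^ c) + 1) * (m + d + 1) ^ 10 := by
        simp only [I, card_product, card_univ, Fintype.card_prod, Fintype.card_fun, Fintype.card_fin,
          Int.card_Icc]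
        have h2 : (3 + 2 ^ c + 1 - -(3 + 2 ^ c : ℤ)).toNat = 2 * (3 + 2 ^ c) + 1 := by
          have : (3 + 2 ^ c + 1 - -(3 + 2 ^ c : ℤ)) = ((2 * (3 + 2 ^ c) + 1 : ℕ) : ℤ) := by
            push_cast
            ring
          rw [this, Int.toNat_natCast]
        rw [h2]
        ring
      rw [h1]
      push_cast
      ring
    have hmR : (1 : ℝ) ≤ m := by exact_mod_cast hmm3
    have hdR : (d : ℝ) ≤ m + 4 := by exact_mod_cast hd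
    have hd0 : (0 : ℝ) ≤ d := Nat.cast_nonneg _
    have hpoly : ((m : ℝ) + d + 1) ^ 10 * m ≤ C2 * 2 ^ (ε / 2 * m) := by
      refine le_trans ?_ (hC2 m)
      rw [pow_succ (2 * (m : ℝ) + 5) 10]
      refine mul_le_mul (pow_le_pow_left₀ (by positivity) (by linarith) _) (by linarith)
        (by positivity) (by positivity)
    calc ((SG m d c).ncard : ℝ) ≤ TT.card := by exact_mod_cast hcard
      _ ≤ I.card * (100 * m * 2 ^ (ε / 2 * m) *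
            2 ^ (((2 * c + 1 : ℕ) : ℝ) * lam) * 2 ^ ((lam + 1 / 4) * d) *
            Psi lam ^ (((4 * m + d : ℕ) : ℝ) / 4)) := hTT
      _ = ((2 * (3 + 2 ^ c) + 1) * 100 * 2 ^ (((2 * c + 1 : ℕ) : ℝ) * lam)) *
            (((m : ℝ) + d + 1) ^ 10 * m) * 2 ^ (ε / 2 * m) *
            2 ^ ((lam + 1 / 4) * d) * Psi lam ^ (((4 * m + d : ℕ) : ℝ) / 4) := by rw [hI]; ring
      _ ≤ ((2 * (3 + 2 ^ c) + 1) * 100 * 2 ^ (((2 * c + 1 : ℕ) : ℝ) * lam)) *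
            (C2 * 2 ^ (ε / 2 * m)) * 2 ^ (ε / 2 * m) *
            2 ^ ((lam + 1 / 4) * d) * Psi lam ^ (((4 * m + d : ℕ) : ℝ) / 4) := by gcongr
      _ = ((2 * (3 + 2 ^ c) + 1) * 100 * 2 ^ (((2 * c + 1 : ℕ) : ℝ) * lam) * C2) *
            (2 ^ (ε / 2 * m) * 2 ^ (ε / 2 * m)) *
            2 ^ ((lam + 1 / 4) * d) * Psi lam ^ (((4 * m + d : ℕ) : ℝ) / 4) := by ring
      _ = _ := by
          rw [← Real.rpow_add (by norm_num)]
          congr 4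
          ring
  -- all m
  refine ⟨(2 * (3 + 2 ^ c) + 1) * 100 * 2 ^ (((2 * c + 1 : ℕ) : ℝ) * lam) * C2 +
    ∑ l ∈ range m0, ∑ e ∈ range (l + 5), ((SG l e c).ncard : ℝ), fun m d hd => ?_⟩
  have hge1 : (1 : ℝ) ≤ 2 ^ (ε * m) * 2 ^ ((lam + 1 / 4) * d) *
      Psi lam ^ (((4 * m + d : ℕ) : ℝ) / 4) := by
    have h1 : (1 : ℝ) ≤ 2 ^ (ε * m) := Real.one_le_rpow (by norm_num) (by positivity)
    have h2 : (1 : ℝ) ≤ 2 ^ ((lam + 1 / 4) * d) := Real.one_le_rpow (by norm_num) (by positivity)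
    have h3 : (1 : ℝ) ≤ Psi lam ^ (((4 * m + d : ℕ) : ℝ) / 4) :=
      Real.one_le_rpow (one_le_Psi hl0) (by positivity)
    have h4 : (1 : ℝ) ≤ 2 ^ (ε * m) * 2 ^ ((lam + 1 / 4) * d) := one_le_mul_of_one_le_of_one_le h1 h2
    exact one_le_mul_of_one_le_of_one_le h4 h3
  have hs0 : (0 : ℝ) ≤ ∑ l ∈ range m0, ∑ e ∈ range (l + 5), ((SG l e c).ncard : ℝ) :=
    sum_nonneg fun l _ => sum_nonneg fun e _ => Nat.cast_nonneg _
  have hc0 : (0 : ℝ) ≤ (2 * (3 + 2 ^ c) + 1) * 100 * 2 ^ (((2 * c + 1 : ℕ) : ℝ) * lam) * C2 := by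
    positivity
  have hassoc : ∀ a : ℝ, a * 2 ^ (ε * m) * 2 ^ ((lam + 1 / 4) * d) *
      Psi lam ^ (((4 * m + d : ℕ) : ℝ) / 4) = a * (2 ^ (ε * m) * 2 ^ ((lam + 1 / 4) * d) *
      Psi lam ^ (((4 * m + d : ℕ) : ℝ) / 4)) := fun a => by ring
  rw [hassoc]
  by_cases hm : m0 ≤ m
  · have h1 := hlarge m hm d hd
    rw [hassoc] at h1
    exact h1.trans (mul_le_mul_of_nonneg_right (by linarith) (by positivity))
  · have h1 : ((SG m d c).ncard : ℝ) ≤ ∑ l ∈ range m0, ∑ e ∈ range (l + 5), ((SG l e c).ncard : ℝ) := by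
      refine le_trans ?_ (single_le_sum (f := fun l => ∑ e ∈ range (l + 5), ((SG l e c).ncard : ℝ))
        (fun l _ => sum_nonneg fun e _ => Nat.cast_nonneg _) (mem_range.2 (by omega : m < m0)))
      exact single_le_sum (f := fun e => ((SG m e c).ncard : ℝ)) (fun e _ => Nat.cast_nonneg _)
        (mem_range.2 (by omega))
    calc ((SG m d c).ncard : ℝ)
        ≤ ∑ l ∈ range m0, ∑ e ∈ range (l + 5), ((SG l e c).ncard : ℝ) := h1
      _ ≤ (∑ l ∈ range m0, ∑ e ∈ range (l + 5), ((SG l e c).ncard : ℝ)) *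
            (2 ^ (ε * m) * 2 ^ ((lam + 1 / 4) * d) * Psi lam ^ (((4 * m + d : ℕ) : ℝ) / 4)) :=
          le_mul_of_one_le_right hs0 hge1
      _ ≤ _ := mul_le_mul_of_nonneg_right (by linarith) (by positivity)

end Pool.Agent.Lib.MP_0a5adf_nt.EXR.H59
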